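import Mathlib
import Pool.Agent.Helper549.Tri.SqDefs
import Pool.Agent.Helper549.Tri.SqSub
import Pool.Agent.Helper549.Tri.SqCut
import Pool.Agent.Helper549.Tri.SqMain

set_option autoImplicit false

/-!
Square-only triangles.  Definitions (file `Pool/Agent/Helper549/Tri/SqDefs.lean`):
`TriSet v` is the closed triangle with vertices `v 0, v 1, v 2`;
`CanCut T N`: the triangle `T` can be cut into `N` congruent non-degenerate triangles
(reflections allowed, no edge-to-edge condition);
`SquareOnly T`: every `N ≥ 1` with `CanCut T N` is a perfect square;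
`side T i` is the length of the side opposite to the vertex `i`; `angle T i` the angle at `i`.
-/

namespace Pool.Agent.Results.MP_a03157_co.Classification

open Pool.Agent.Helper549.Tri

/-- every triangle can be cut into `m ^ 2` congruent triangles -/
theorem canCut_sq (T : Fin 3 → EuclideanSpace ℝ (Fin 2)) (hT : AffineIndependent ℝ T) (m : ℕ)
    (hm : 0 < m) : CanCut T (m ^ 2) := by
  obtain ⟨P, h1, h2, h3, h4⟩ := SqSub.subdivide T hT m hm
  refine ⟨P, h1, ?_, h3, h4⟩
  intro i j
  apply SqCut.exists_isom (h1 i)
  intro k l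
  rw [h2, h2]

/-- **Classification of square-only triangles outside an explicit small exceptional class.**
Let `T` be a triangle such that either some ratio of two sides is transcendental, or
(the angles are not all rational multiples of `π`, no angle is twice another one, no angle is `π/3`,
no two angles differ by `π/3`, and no two angles satisfy `3 A + 4 B = 2 π`).
Then `T` is square-only if and only if it is scalene and it is not a right triangle whose legs
have a ratio `m : n` with `m ^ 2 + n ^ 2` not a perfect square.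
Moreover if such a `T` is scalene, then the numbers `N ≥ 1` such that `T` can be cut into `N`
congruent triangles are exactly the squares and the numbers `m ^ 2 + n ^ 2` where `T` is a right
triangle with ratio of the legs `m : n`. -/
theorem result (T : Fin 3 → EuclideanSpace ℝ (Fin 2)) (hT : AffineIndependent ℝ T)
    (hclass : (∃ i j, Transcendental ℚ (side T i / side T j)) ∨
      ((¬ ∀ i, ∃ q : ℚ, angle T i = q * Real.pi) ∧
       (∀ i j, i ≠ j → angle T i ≠ 2 * angle T j) ∧
       (∀ i, angle T i ≠ Real.pi / 3) ∧
       (∀ i j, i ≠ j → angle T i - angle T j ≠ Real.pi / 3) ∧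
       (∀ i j, i ≠ j → 3 * angle T i + 4 * angle T j ≠ 2 * Real.pi))) :
    (SquareOnly T ↔
      ((∀ i j, i ≠ j → side T i ≠ side T j) ∧
       ¬ ∃ i j k, i ≠ j ∧ i ≠ k ∧ j ≠ k ∧ angle T k = Real.pi / 2 ∧
         ∃ m n : ℕ, 0 < m ∧ 0 < n ∧ ¬ IsSquare (m ^ 2 + n ^ 2) ∧ side T i * n = side T j * m)) ∧
    ((∀ i j, i ≠ j → side T i ≠ side T j) → ∀ N : ℕ, 1 ≤ N →
      (CanCut T N ↔ (IsSquare N ∨
        ∃ i j k, i ≠ j ∧ i ≠ k ∧ j ≠ k ∧ angle T k = Real.pi / 2 ∧
          ∃ m n : ℕ, 0 < m ∧ 0 < n ∧ m ^ 2 + n ^ 2 = N ∧ side T i * n = side T j * m))) := by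
  refine ⟨SqMain.classification T hT hclass, ?_⟩
  intro hsc N hN
  constructor
  · intro hcut
    by_cases hns : IsSquare N
    · exact Or.inl hns
    right
    rcases SqMain.nonsquare_cut hns T hT hcut with h | h | h | h
    · rcases hclass with ⟨i, j, hij⟩ | hcl
      · exact (hij (SqMain.algebraic_of_rational_angles T hT h i j)).elim
      · exact (hcl.1 h).elim
    · obtain ⟨i, j, hij, h⟩ := h
      exact (hsc i j hij h).elim
    · exact h
    · exfalso
      obtain ⟨halg, h⟩ := h
      rcases hclass with ⟨i, j, hij⟩ | ⟨_, c1, c2, c3, c4⟩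
      · exact hij (halg i j)
      · rcases h with ⟨i, j, hij, h⟩ | ⟨i, h⟩ | ⟨i, j, hij, h⟩ | ⟨i, j, hij, h⟩
        · exact c1 i j hij h
        · exact c2 i h
        · exact c3 i j hij h
        · exact c4 i j hij h
  · rintro (h | ⟨i, j, k, hij, hik, hjk, hr, m, n, hm, hn, hmn, h⟩)
    · obtain ⟨r, rfl⟩ := h
      have hr : 0 < r := by
        rcases Nat.eq_zero_or_pos r with h0 | h0
        · subst h0; simp at hN
        · exact h0
      have := canCut_sq T hT r hr
      rwa [pow_two] at this
    · rw [← hmn]
      exact SqCut.cut_right T hT i j k hij hik hjk hr m n hm hn h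

end Pool.Agent.Results.MP_a03157_co.Classification
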